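import Pool.Agent.WETC.Final
import Pool.Agent.WittR.Elem

/-!
# The weak elementary type conjecture

The Witt ring of a field of characteristic not two with finitely many square classes is of
elementary type.
-/

namespace Pool.Agent.Results.MP_2429c0_al.ElementaryType

open Pool.Agent.Hhelper2 Pool.Agent.WittR

universe u

theorem result (F : Type u) [Field F] (h2 : (2 : F) ≠ 0)
    (hfin : Finite (Fˣ ⧸ Subgroup.square Fˣ)) : ElemPair (WittRing F) (dimW F) :=
  elemPair_of_isElementary h2 (Pool.Agent.WETC.isElementary_ofField F h2 hfin)

end Pool.Agent.Results.MP_2429c0_al.ElementaryType
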